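import Pool.Agent.U991.Car.Upper

/-!
Maximisers of the density of a carousel tournament are balanced: the part over maps.
-/

namespace Pool.Agent.U944.CB

open Finset Pool.Agent.U991.Car

set_option linter.unusedSectionVars false

variable {V : Type*} [DecidableEq V] [Fintype V] {s : V → V → ℤ}

/-- the imbalance of a vertex -/
def imb (s : V → V → ℤ) (v : V) : ℤ := ∑ u, s u v

theorem s_self (hs : IsSgn s) (v : V) : s v v = 0 := by
  have := hs.skew v v
  omega

theorem pos_single (hs : IsSgn s) (v : V) : Pos s {v} := by
  refine ⟨Finset.singleton_nonempty v, fun _ => 1, fun _ _ => one_pos, ?_⟩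
  intro u hu
  rw [Finset.mem_singleton] at hu
  subst hu
  rw [Finset.sum_singleton, s_self hs]
  simp

theorem fs_single (hs : IsSgn s) (v u : V) : (fs s {v} u : ℤ) = s u v := by
  have h := fs_eq hs (pos_single hs v) (fun _ => 1) (fun _ _ => one_pos) (by
    intro u hu
    rw [Finset.mem_singleton] at hu
    subst hu
    rw [Finset.sum_singleton, s_self hs]
    simp) u
  rw [h, Finset.sum_singleton, mul_one]
  by_cases huv : u = v
  · subst huv
    rw [s_self hs]
    simp
  · rcases hs.one u v huv with h | h <;> rw [h] <;> simp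

theorem sum_term_single (hs : IsSgn s) (k : ℕ) :
    ∑ x : Fin (k + 1) → V, term s x {0} = 2 * ∑ v, imb s v ^ k := by
  classical
  rw [← (Fin.consEquiv (fun _ : Fin (k + 1) => V)).sum_comp, Fintype.sum_prod_type,
    Finset.mul_sum]
  refine Finset.sum_congr rfl fun v _ => ?_
  have hterm : ∀ y : Fin k → V, term s ((Fin.consEquiv (fun _ : Fin (k + 1) => V)) (v, y)) {0}
      = 2 * ∏ j, s (y j) v := by
    intro y
    unfold term
    rw [if_pos]
    · rw [Finset.card_singleton, pow_one]
      congr 1
      have h1 : ({0} : Finset (Fin (k + 1)))ᶜ = Finset.univ.map (Fin.succEmb k) := by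
        ext i
        simp only [Finset.mem_compl, Finset.mem_singleton, Finset.mem_map, Finset.mem_univ,
          true_and]
        constructor
        · intro hi
          exact ⟨i.pred hi, by simp⟩
        · rintro ⟨j, rfl⟩
          simp
      rw [h1, Finset.prod_map]
      refine Finset.prod_congr rfl fun j _ => ?_
      simp [Fin.consEquiv, fs_single hs]
    · refine ⟨by simp, ?_⟩
      simpa [Fin.consEquiv] using pos_single hs v
  rw [Finset.sum_congr rfl (fun y _ => hterm y), ← Finset.mul_sum]
  congr 1
  unfold imb
  have := (Fintype.prod_sum (fun (_ : Fin k) (u : V) => s u v)).symm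
  rw [this, Finset.prod_const, Finset.card_univ, Fintype.card_fin]

open Classical in
/-- Counting inequality with the term of the imbalances. -/
theorem count_maps' {k : ℕ} (hs : IsSgn s) (hm : Odd (k + 1)) (hk : 1 ≤ k) :
    (2 : ℤ) ^ (k + 1) * (univ.filter fun x : Fin (k + 1) → V =>
        Function.Injective x ∧ Pos s (univ.image x)).card + 2 * ∑ v, imb s v ^ k ≤
      2 * ((Fintype.card V).descFactorial (k + 1) : ℤ) +
        3 ^ (k + 1) * ((Fintype.card V : ℤ) ^ (k + 1) - ((Fintype.card V).descFactorial (k + 1) : ℤ)) := by
  have hinj : (univ.filter fun x : Fin (k + 1) → V => Function.Injective x).card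
      = (Fintype.card V).descFactorial (k + 1) := by
    rw [← Fintype.card_subtype, Fintype.card_congr (Equiv.subtypeInjectiveEquivEmbedding _ _),
      Fintype.card_embedding_eq, Fintype.card_fin]
  have hall : (univ : Finset (Fin (k + 1) → V)).card = (Fintype.card V) ^ (k + 1) := by
    rw [Finset.card_univ, Fintype.card_fun, Fintype.card_fin]
  have hnot : ((univ.filter fun x : Fin (k + 1) → V => ¬ Function.Injective x).card : ℤ)
      = (Fintype.card V : ℤ) ^ (k + 1) - ((Fintype.card V).descFactorial (k + 1) : ℤ) := by
    have := Finset.card_filter_add_card_filter_not (s := (univ : Finset (Fin (k + 1) → V)))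
      (fun x => Function.Injective x)
    rw [hinj, hall] at this
    have h2 : (((Fintype.card V).descFactorial (k + 1) : ℕ) : ℤ) +
      ((univ.filter fun x : Fin (k + 1) → V => ¬ Function.Injective x).card : ℤ)
        = (Fintype.card V : ℤ) ^ (k + 1) := by exact_mod_cast this
    linarith
  have hup : ∑ x : Fin (k + 1) → V, ∑ I, term s x I ≤
      2 * ((Fintype.card V).descFactorial (k + 1) : ℤ) +
        3 ^ (k + 1) * ((Fintype.card V : ℤ) ^ (k + 1) - ((Fintype.card V).descFactorial (k + 1) : ℤ)) := by
    rw [← Finset.sum_filter_add_sum_filter_not univ (fun x : Fin (k + 1) → V => Function.Injective x)]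
    apply add_le_add
    · rw [Finset.sum_congr rfl (fun x hx => sum_term_inj hs hm x (Finset.mem_filter.mp hx).2),
        Finset.sum_const, hinj]
      simp [mul_comm]
    · calc ∑ x ∈ univ.filter (fun x : Fin (k + 1) → V => ¬ Function.Injective x), ∑ I, term s x I
          ≤ ∑ x ∈ univ.filter (fun x : Fin (k + 1) → V => ¬ Function.Injective x), (3 : ℤ) ^ (k + 1) :=
            Finset.sum_le_sum fun x _ => sum_term_le x
        _ = 3 ^ (k + 1) * ((Fintype.card V : ℤ) ^ (k + 1) - ((Fintype.card V).descFactorial (k + 1) : ℤ)) := by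
            rw [Finset.sum_const, nsmul_eq_mul, hnot, mul_comm]
  refine le_trans ?_ hup
  rw [Finset.sum_comm]
  rw [← Finset.add_sum_erase univ _ (Finset.mem_univ (univ : Finset (Fin (k + 1))))]
  have h1 : ∑ x : Fin (k + 1) → V, term s x univ = (2 : ℤ) ^ (k + 1) * (univ.filter fun x : Fin (k + 1) → V =>
        Function.Injective x ∧ Pos s (univ.image x)).card := by
    rw [Finset.card_filter]
    push_cast
    rw [Finset.mul_sum]
    refine Finset.sum_congr rfl fun x _ => ?_
    unfold term
    simp only [Finset.coe_univ, Set.injOn_univ, Finset.card_univ, Fintype.card_fin,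
      Finset.compl_univ, Finset.prod_empty, mul_one]
    split_ifs <;> simp
  rw [h1]
  have hmem : ({0} : Finset (Fin (k + 1))) ∈ (univ : Finset (Finset (Fin (k + 1)))).erase univ := by
    refine Finset.mem_erase.mpr ⟨?_, Finset.mem_univ _⟩
    intro h
    have := congrArg Finset.card h
    rw [Finset.card_singleton, Finset.card_univ, Fintype.card_fin] at this
    omega
  have h2 : ∑ x : Fin (k + 1) → V, term s x {0} ≤
      ∑ I ∈ (univ : Finset (Finset (Fin (k + 1)))).erase univ,
      ∑ x : Fin (k + 1) → V, term s x I :=
    Finset.single_le_sum (f := fun I => ∑ x : Fin (k + 1) → V, term s x I)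
      (fun I _ => sum_x_nonneg hs hm I) hmem
  rw [sum_term_single hs] at h2
  linarith

end Pool.Agent.U944.CB
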