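import Pool.Agent.U944.CB.Triple

/-!
Maximisers of the density of a carousel tournament are balanced: the limits.
-/

namespace Pool.Agent.U944.CB

open Finset Filter Topology Pool.Agent.U991.Car

set_option linter.unusedSectionVars false

/-- A tournament which induces `T` on `S`, where the sign matrix of `T` has a positive kernel
vector. -/
theorem pos_of_induces' {k N : ℕ} {T : Tournament k} (hT : Pos (sg T) univ) (U : Tournament N)
    (S : Finset (Fin N)) (h : Induces T U S) : Pos (sg U) S := by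
  classical
  obtain ⟨f, hf, rfl, hadj⟩ := h
  obtain ⟨⟨i0, _⟩, x, hx, hx2⟩ := hT
  have hk : Nonempty (Fin k) := ⟨i0⟩
  refine ⟨⟨f i0, Finset.mem_image_of_mem f (Finset.mem_univ _)⟩,
    fun u => x (Function.invFun f u), fun u _ => hx _ (Finset.mem_univ _), ?_⟩
  intro u hu
  obtain ⟨i, _, rfl⟩ := Finset.mem_image.mp hu
  rw [Finset.sum_image (fun a _ b _ h => hf h)]
  have h1 : ∀ j, sg U (f i) (f j) = sg T i j := by
    intro j
    unfold sg
    by_cases hij : i = j
    · subst hij; simp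
    · rw [if_neg hij, if_neg (fun e => hij (hf e))]
      by_cases h4 : T.adj i j
      · rw [if_pos h4, if_pos ((hadj i j).mp h4)]
      · rw [if_neg h4, if_neg (fun h5 => h4 ((hadj i j).mpr h5))]
  have h2 := hx2 i (Finset.mem_univ _)
  simp_rw [h1, Function.leftInverse_invFun hf _]
  exact h2

theorem carousel_pos (n : ℕ) : Pos (sg (carousel n)) univ := by
  refine ⟨⟨⟨0, by omega⟩, Finset.mem_univ _⟩, fun _ => 1, fun _ _ => one_pos, ?_⟩
  intro u _
  have h := carousel_reg n u
  simp_rw [mul_one]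
  exact_mod_cast h

/-- `T` and `T'` are isomorphic -/
def Iso {k : ℕ} (T T' : Tournament k) : Prop :=
  ∃ f : Fin k → Fin k, Function.Bijective f ∧ ∀ x y, T.adj x y ↔ T'.adj (f x) (f y)

theorem iso_of_induces {k N : ℕ} {T T' : Tournament k} {U : Tournament N} {S : Finset (Fin N)}
    (h : Induces T U S) (h' : Induces T' U S) : Iso T T' := by
  classical
  obtain ⟨f, hf, hS, hadj⟩ := h
  obtain ⟨g, hg, hS', hadj'⟩ := h'
  have hex : ∀ x, ∃ y, g y = f x := by
    intro x
    have : f x ∈ S := by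
      rw [← hS]
      exact Finset.mem_image_of_mem f (Finset.mem_univ _)
    rw [← hS'] at this
    obtain ⟨y, _, hy⟩ := Finset.mem_image.mp this
    exact ⟨y, hy⟩
  choose e he using hex
  refine ⟨e, ?_, ?_⟩
  · rw [← Finite.injective_iff_bijective]
    intro x y hxy
    apply hf
    rw [← he x, ← he y, hxy]
  · intro x y
    rw [hadj x y, hadj' (e x) (e y), he, he]

open Classical in
/-- two densities together -/
theorem density_bound2 {n N : ℕ} (U : Tournament N) (hN : 2 * n + 1 ≤ N)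
    (T : Tournament (2 * n + 1)) (hT : Pos (sg T) univ) (hTR : ¬ Iso T (carousel n)) :
    (2 : ℝ) ^ (2 * n + 1) * (density T U + density (carousel n) U) ≤
      2 + 3 ^ (2 * n + 1) * (((N.descFactorial (2 * n + 1) : ℝ) / (N : ℝ) ^ (2 * n + 1))⁻¹ - 1)
      := by
  have hm : Odd (2 * n + 1) := ⟨n, rfl⟩
  obtain ⟨F1, hF1⟩ : ∃ F1, F1 = (univ.powersetCard (2 * n + 1)).filter
    fun S : Finset (Fin N) => Induces (carousel n) U S := ⟨_, rfl⟩
  obtain ⟨F2, hF2⟩ : ∃ F2, F2 = (univ.powersetCard (2 * n + 1)).filter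
    fun S : Finset (Fin N) => Induces T U S := ⟨_, rfl⟩
  have hdis : Disjoint F2 F1 := by
    rw [Finset.disjoint_left]
    intro S hS hS'
    rw [hF2, Finset.mem_filter] at hS
    rw [hF1, Finset.mem_filter] at hS'
    exact hTR (iso_of_induces hS.2 hS'.2)
  have h1 := count_sets (m := 2 * n + 1) (sg_isSgn U) hm (F2 ∪ F1) (fun S hS => by
    rw [Finset.mem_union, hF1, hF2, Finset.mem_filter, Finset.mem_filter,
      Finset.mem_powersetCard] at hS
    rcases hS with hS | hS
    · exact ⟨hS.1.2, pos_of_induces' hT U S hS.2⟩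
    · exact ⟨hS.1.2, pos_of_induces U S hS.2⟩)
  rw [Fintype.card_fin, Finset.card_union_of_disjoint hdis] at h1
  have hD : 0 < N.descFactorial (2 * n + 1) := Nat.pos_of_ne_zero (by
    rw [Ne, Nat.descFactorial_eq_zero_iff_lt]; omega)
  have hDr : (0 : ℝ) < (N.descFactorial (2 * n + 1) : ℝ) := by exact_mod_cast hD
  have hDc : (N.descFactorial (2 * n + 1) : ℝ) = (2 * n + 1).factorial * N.choose (2 * n + 1) := by
    exact_mod_cast Nat.descFactorial_eq_factorial_mul_choose N (2 * n + 1)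
  have h2 : (2 : ℝ) ^ (2 * n + 1) * ((2 * n + 1).factorial * (F2.card + F1.card)) ≤
      2 * (N.descFactorial (2 * n + 1) : ℝ) +
        3 ^ (2 * n + 1) * ((N : ℝ) ^ (2 * n + 1) - (N.descFactorial (2 * n + 1) : ℝ)) := by
    exact_mod_cast h1
  have hfac : (0 : ℝ) < ((2 * n + 1).factorial : ℝ) := by positivity
  have hch : (0 : ℝ) < (N.choose (2 * n + 1) : ℝ) := by
    have : 0 < N.choose (2 * n + 1) := Nat.choose_pos hN
    exact_mod_cast this
  have h3 : (2 : ℝ) ^ (2 * n + 1) * (density T U + density (carousel n) U) =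
      (2 : ℝ) ^ (2 * n + 1) * ((2 * n + 1).factorial * (F2.card + F1.card)) /
        (N.descFactorial (2 * n + 1) : ℝ) := by
    unfold density
    rw [hDc, ← hF1, ← hF2]
    field_simp
  rw [h3, inv_div]
  rw [div_le_iff₀ hDr]
  refine h2.trans (le_of_eq ?_)
  field_simp

theorem density_nonneg {k N : ℕ} (T : Tournament k) (U : Tournament N) : 0 ≤ density T U := by
  unfold density
  positivity

theorem other_zero (φ : (k : ℕ) → Tournament k → ℝ) (hφ : IsLimit φ) (n : ℕ)
    (hmax : φ (2 * n + 1) (carousel n) = (1 / 4 : ℝ) ^ n) (T : Tournament (2 * n + 1))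
    (hT : Pos (sg T) univ) (hTR : ¬ Iso T (carousel n)) : φ (2 * n + 1) T = 0 := by
  obtain ⟨N, U, hN, hlim⟩ := hφ
  have h0 : 0 ≤ φ (2 * n + 1) T := ge_of_tendsto' (hlim (2 * n + 1) T)
    (fun m => density_nonneg T (U m))
  have h1 := ((hlim (2 * n + 1) T).add (hlim (2 * n + 1) (carousel n))).const_mul
    ((2 : ℝ) ^ (2 * n + 1))
  have hNt : Tendsto N atTop atTop := hN.tendsto_atTop
  have h2 : Tendsto (fun m => 2 + 3 ^ (2 * n + 1) *
      ((((N m).descFactorial (2 * n + 1) : ℝ) / ((N m : ℕ) : ℝ) ^ (2 * n + 1))⁻¹ - 1)) atTop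
      (𝓝 (2 + 3 ^ (2 * n + 1) * ((1 : ℝ)⁻¹ - 1))) :=
    tendsto_const_nhds.add ((((desc_tendsto (2 * n + 1)).comp hNt).inv₀ one_ne_zero).sub_const 1
      |>.const_mul _)
  have h3 := le_of_tendsto_of_tendsto h1 h2 (by
    filter_upwards [hNt.eventually_ge_atTop (2 * n + 1)] with m hm
    exact density_bound2 (U m) hm T hT hTR)
  rw [inv_one, sub_self, mul_zero, add_zero, hmax] at h3
  have h4 : (1 / 4 : ℝ) ^ n * 2 ^ (2 * n + 1) = 2 := by
    rw [pow_succ, pow_mul, ← mul_assoc, ← mul_pow]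
    norm_num
  have h5 : (0 : ℝ) < 2 ^ (2 * n + 1) := by positivity
  apply le_antisymm _ h0
  by_contra hcon
  push Not at hcon
  have h6 : 0 < (2 : ℝ) ^ (2 * n + 1) * φ (2 * n + 1) T := mul_pos h5 hcon
  nlinarith

end Pool.Agent.U944.CB
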