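import Pool.Agent.U944.CB.Lim

/-!
Maximisers of the density of a carousel tournament are balanced: end.
-/

namespace Pool.Agent.U944.CB

open Finset Filter Topology Pool.Agent.U991.Car

set_option linter.unusedSectionVars false

/-- the normalised moment of the imbalances -/
noncomputable def mom {N : ℕ} (U : Tournament N) (n : ℕ) : ℝ :=
  (∑ v, (imb (sg U) v : ℝ) ^ (2 * n)) / (N : ℝ) ^ (2 * n + 1)

theorem mom_nonneg {N : ℕ} (U : Tournament N) (n : ℕ) : 0 ≤ mom U n := by
  unfold mom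
  apply div_nonneg _ (by positivity)
  exact Finset.sum_nonneg fun v _ => (even_two_mul n).pow_nonneg _

theorem mom_pow_le {N : ℕ} (hN : 0 < N) (U : Tournament N) (n : ℕ) :
    mom U 1 ^ n ≤ mom U n := by
  have hNr : (0 : ℝ) < N := by exact_mod_cast hN
  have h := Real.pow_arith_mean_le_arith_mean_pow (Finset.univ : Finset (Fin N))
    (fun _ => (1 : ℝ) / N) (fun v => ((imb (sg U) v : ℝ) / N) ^ 2) (fun _ _ => by positivity)
    (by rw [Finset.sum_const, Finset.card_univ, Fintype.card_fin, nsmul_eq_mul]; field_simp)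
    (fun _ _ => by positivity) n
  have e1 : mom U 1 = ∑ v, (1 : ℝ) / N * ((imb (sg U) v : ℝ) / N) ^ 2 := by
    unfold mom
    rw [Finset.sum_div]
    refine Finset.sum_congr rfl fun v _ => ?_
    field_simp
    ring
  have e2 : mom U n = ∑ v, (1 : ℝ) / N * (((imb (sg U) v : ℝ) / N) ^ 2) ^ n := by
    unfold mom
    rw [Finset.sum_div]
    refine Finset.sum_congr rfl fun v _ => ?_
    rw [← pow_mul, div_pow, pow_succ]
    field_simp
  rw [e1, e2]
  exact h

theorem c3_density {N : ℕ} (hN : 3 ≤ N) (U : Tournament N) :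
    1 / 4 - 3 / 4 * (mom U 1 * ((N.descFactorial 3 : ℝ) / (N : ℝ) ^ 3)⁻¹) ≤
      density (carousel 1) U := by
  classical
  have h := c3_lower U
  have hN3 : (3 : ℝ) ≤ N := by exact_mod_cast hN
  have hch := choose_three N
  have hchr : (6 : ℝ) * (N.choose 3 : ℝ) = N * (N - 1) * (N - 2) := by exact_mod_cast hch
  have hdesc : (N.descFactorial 3 : ℝ) = N * (N - 1) * (N - 2) := by
    rw [← hchr]
    have := Nat.descFactorial_eq_factorial_mul_choose N 3
    rw [this]
    norm_num [Nat.factorial]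
  have hpos : (0 : ℝ) < N * (N - 1) * (N - 2) := by
    have h1 : (0 : ℝ) < N - 1 := by linarith
    have h2 : (0 : ℝ) < N - 2 := by linarith
    positivity
  have hr : (N : ℝ) * (N - 1) * (N - 2) - 3 * ∑ v, (imb (sg U) v : ℝ) ^ 2 ≤
      24 * (((univ.powersetCard 3).filter fun S : Finset (Fin N) =>
        Induces (carousel 1) U S).card : ℝ) := by exact_mod_cast h
  have hdef : density (carousel 1) U = (((univ.powersetCard 3).filter fun S : Finset (Fin N) =>
        Induces (carousel 1) U S).card : ℝ) / (N.choose 3 : ℝ) := rfl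
  have hchpos : (0 : ℝ) < (N.choose 3 : ℝ) := by linarith
  rw [hdef, le_div_iff₀ hchpos, hdesc]
  have hmom : mom U 1 = (∑ v, (imb (sg U) v : ℝ) ^ 2) / (N : ℝ) ^ 3 := by
    unfold mom
    norm_num
  have hNr : (0 : ℝ) < N := by linarith
  have e : mom U 1 * ((N : ℝ) * (N - 1) * (N - 2) / (N : ℝ) ^ 3)⁻¹ =
      (∑ v, (imb (sg U) v : ℝ) ^ 2) / (6 * (N.choose 3 : ℝ)) := by
    rw [hmom, ← hchr]
    field_simp
  rw [e]
  have e2 : (1 / 4 - 3 / 4 * ((∑ v, (imb (sg U) v : ℝ) ^ 2) / (6 * (N.choose 3 : ℝ)))) *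
      (N.choose 3 : ℝ) = 1 / 24 * (6 * (N.choose 3 : ℝ)) -
        1 / 8 * ∑ v, (imb (sg U) v : ℝ) ^ 2 := by
    field_simp
    ring
  rw [e2, hchr]
  linarith

open Classical in
theorem mom_bound {n N : ℕ} (hn : 1 ≤ n) (U : Tournament N) (hN : 2 * n + 1 ≤ N) :
    (2 : ℝ) ^ (2 * n + 1) * density (carousel n) U *
        ((N.descFactorial (2 * n + 1) : ℝ) / (N : ℝ) ^ (2 * n + 1)) + 2 * mom U n ≤
      2 * ((N.descFactorial (2 * n + 1) : ℝ) / (N : ℝ) ^ (2 * n + 1)) +
        3 ^ (2 * n + 1) * (1 - (N.descFactorial (2 * n + 1) : ℝ) / (N : ℝ) ^ (2 * n + 1)) := by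
  have hm : Odd (2 * n + 1) := ⟨n, rfl⟩
  obtain ⟨F, hF⟩ : ∃ F, F = (univ.powersetCard (2 * n + 1)).filter
    fun S : Finset (Fin N) => Induces (carousel n) U S := ⟨_, rfl⟩
  have h1 := count_maps' (k := 2 * n) (sg_isSgn U) hm (by omega)
  rw [Fintype.card_fin] at h1
  have h2 : (2 * n + 1).factorial * F.card ≤ (univ.filter fun x : Fin (2 * n + 1) → Fin N =>
        Function.Injective x ∧ Pos (sg U) (univ.image x)).card := by
    calc (2 * n + 1).factorial * F.card = ∑ S ∈ F, (2 * n + 1).factorial := by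
          rw [Finset.sum_const, smul_eq_mul, mul_comm]
      _ ≤ ∑ S ∈ F, (univ.filter fun x : Fin (2 * n + 1) → Fin N =>
            Function.Injective x ∧ univ.image x = S).card :=
          Finset.sum_le_sum fun S hS => fiber_card S (by
            rw [hF, Finset.mem_filter, Finset.mem_powersetCard] at hS
            exact hS.1.2)
      _ = (F.biUnion fun S => univ.filter fun x : Fin (2 * n + 1) → Fin N =>
            Function.Injective x ∧ univ.image x = S).card := by
          rw [Finset.card_biUnion]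
          intro S _ T _ hST
          refine Finset.disjoint_left.mpr ?_
          intro x hx hx2
          exact hST ((Finset.mem_filter.mp hx).2.2.symm.trans (Finset.mem_filter.mp hx2).2.2)
      _ ≤ _ := by
          apply Finset.card_le_card
          intro x hx
          obtain ⟨S, hS, hx⟩ := Finset.mem_biUnion.mp hx
          obtain ⟨_, hx1, hx2⟩ := Finset.mem_filter.mp hx
          refine Finset.mem_filter.mpr ⟨Finset.mem_univ _, hx1, ?_⟩
          rw [hx2]
          rw [hF, Finset.mem_filter] at hS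
          exact pos_of_induces U S hS.2
  have h3 : (2 : ℤ) ^ (2 * n + 1) * (((2 * n + 1).factorial * F.card : ℕ) : ℤ) +
      2 * ∑ v, imb (sg U) v ^ (2 * n) ≤ 2 * (N.descFactorial (2 * n + 1) : ℤ) +
        3 ^ (2 * n + 1) * ((N : ℤ) ^ (2 * n + 1) - (N.descFactorial (2 * n + 1) : ℤ)) := by
    refine le_trans (add_le_add_left ?_ _) h1
    apply mul_le_mul_of_nonneg_left _ (by positivity)
    exact_mod_cast h2
  have h4 : (2 : ℝ) ^ (2 * n + 1) * (((2 * n + 1).factorial : ℝ) * (F.card : ℝ)) +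
      2 * ∑ v, (imb (sg U) v : ℝ) ^ (2 * n) ≤ 2 * (N.descFactorial (2 * n + 1) : ℝ) +
        3 ^ (2 * n + 1) * ((N : ℝ) ^ (2 * n + 1) - (N.descFactorial (2 * n + 1) : ℝ)) := by
    exact_mod_cast h3
  have hNpos : 0 < N := by omega
  have hNr : (0 : ℝ) < (N : ℝ) ^ (2 * n + 1) := by positivity
  have hch : (0 : ℝ) < (N.choose (2 * n + 1) : ℝ) := by
    have : 0 < N.choose (2 * n + 1) := Nat.choose_pos hN
    exact_mod_cast this
  have hDc : (N.descFactorial (2 * n + 1) : ℝ) = (2 * n + 1).factorial * N.choose (2 * n + 1) := by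
    exact_mod_cast Nat.descFactorial_eq_factorial_mul_choose N (2 * n + 1)
  have e1 : (2 : ℝ) ^ (2 * n + 1) * density (carousel n) U *
        ((N.descFactorial (2 * n + 1) : ℝ) / (N : ℝ) ^ (2 * n + 1)) =
      (2 : ℝ) ^ (2 * n + 1) * (((2 * n + 1).factorial : ℝ) * (F.card : ℝ)) /
        (N : ℝ) ^ (2 * n + 1) := by
    unfold density
    rw [hDc, ← hF]
    field_simp
  rw [e1]
  unfold mom
  rw [← mul_div_assoc, ← add_div]
  have e2 : 2 * ((N.descFactorial (2 * n + 1) : ℝ) / (N : ℝ) ^ (2 * n + 1)) +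
        3 ^ (2 * n + 1) * (1 - (N.descFactorial (2 * n + 1) : ℝ) / (N : ℝ) ^ (2 * n + 1)) =
      (2 * (N.descFactorial (2 * n + 1) : ℝ) +
        3 ^ (2 * n + 1) * ((N : ℝ) ^ (2 * n + 1) - (N.descFactorial (2 * n + 1) : ℝ))) /
        (N : ℝ) ^ (2 * n + 1) := by
    field_simp
  rw [e2]
  exact (div_le_div_iff_of_pos_right hNr).mpr h4

theorem balanced (φ : (k : ℕ) → Tournament k → ℝ) (hφ : IsLimit φ) {n : ℕ} (hn : 1 ≤ n)
    (hmax : φ (2 * n + 1) (carousel n) = (1 / 4 : ℝ) ^ n) : φ 3 (carousel 1) = 1 / 4 := by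
  obtain ⟨N, U, hN, hlim⟩ := hφ
  have hNt : Tendsto N atTop atTop := hN.tendsto_atTop
  have hup := limit_bound φ ⟨N, U, hN, hlim⟩ 1
  have hq := (desc_tendsto (2 * n + 1)).comp hNt
  have hq3 := (desc_tendsto 3).comp hNt
  -- the moments tend to zero
  have h1 : Tendsto (fun m => mom (U m) n) atTop (𝓝 0) := by
    have h2 : Tendsto (fun m => (1 / 2 : ℝ) * (2 * (((N m).descFactorial (2 * n + 1) : ℝ) /
          ((N m : ℕ) : ℝ) ^ (2 * n + 1)) + 3 ^ (2 * n + 1) * (1 - ((N m).descFactorial (2 * n + 1)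
          : ℝ) / ((N m : ℕ) : ℝ) ^ (2 * n + 1)) - (2 : ℝ) ^ (2 * n + 1) *
          density (carousel n) (U m) * (((N m).descFactorial (2 * n + 1) : ℝ) /
          ((N m : ℕ) : ℝ) ^ (2 * n + 1)))) atTop
        (𝓝 ((1 / 2 : ℝ) * (2 * 1 + 3 ^ (2 * n + 1) * (1 - 1) - (2 : ℝ) ^ (2 * n + 1) *
          φ (2 * n + 1) (carousel n) * 1))) :=
      (((hq.const_mul 2).add ((hq.const_sub 1).const_mul _)).sub
        (((hlim (2 * n + 1) (carousel n)).const_mul _).mul hq)).const_mul _
    have h4 : (2 : ℝ) ^ (2 * n + 1) * (1 / 4 : ℝ) ^ n = 2 := by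
      rw [mul_comm, pow_succ, pow_mul, ← mul_assoc, ← mul_pow]
      norm_num
    rw [hmax, h4] at h2
    norm_num at h2
    refine squeeze_zero' (Eventually.of_forall fun m => mom_nonneg (U m) n) ?_ h2
    filter_upwards [hNt.eventually_ge_atTop (2 * n + 1)] with m hm
    have := mom_bound hn (U m) hm
    norm_num at this ⊢
    linarith
  have h5 : Tendsto (fun m => mom (U m) 1) atTop (𝓝 0) := by
    rw [tendsto_order]
    constructor
    · intro a ha
      exact Eventually.of_forall fun m => lt_of_lt_of_le ha (mom_nonneg (U m) 1)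
    · intro a ha
      have h6 := (tendsto_order.mp h1).2 (a ^ n) (by positivity)
      filter_upwards [h6, hNt.eventually_gt_atTop 0] with m hm hm2
      exact lt_of_pow_lt_pow_left₀ n ha.le (lt_of_le_of_lt (mom_pow_le hm2 (U m) n) hm)
  have h7 : Tendsto (fun m => 1 / 4 - 3 / 4 * (mom (U m) 1 *
      (((N m).descFactorial 3 : ℝ) / ((N m : ℕ) : ℝ) ^ 3)⁻¹)) atTop
      (𝓝 (1 / 4 - 3 / 4 * (0 * (1 : ℝ)⁻¹))) :=
    ((h5.mul (hq3.inv₀ one_ne_zero)).const_mul _).const_sub _
  have h8 := le_of_tendsto_of_tendsto h7 (hlim 3 (carousel 1)) (by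
    filter_upwards [hNt.eventually_ge_atTop 3] with m hm
    exact c3_density hm (U m))
  rw [zero_mul, mul_zero, sub_zero] at h8
  refine le_antisymm ?_ h8
  rw [pow_one] at hup
  exact hup

end Pool.Agent.U944.CB
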