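import Pool.Agent.U944.CB.Balance

/-!
The number of cyclic triangles of a tournament and its imbalances.
-/

namespace Pool.Agent.U944.CB

open Finset Pool.Agent.U991.Car

theorem adj_of_not {N : ℕ} (U : Tournament N) {a b : Fin N} (h : a ≠ b) (h2 : ¬ U.adj a b) :
    U.adj b a := by
  by_contra h3
  exact h2 ((U.one_arc a b h).mpr h3)

theorem not_adj {N : ℕ} (U : Tournament N) {a b : Fin N} (h2 : U.adj a b) :
    ¬ U.adj b a := by
  have h : a ≠ b := fun e => U.irrefl a (by rw [← e] at h2; exact h2)
  exact (U.one_arc a b h).mp h2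

theorem induces_c3 {N : ℕ} (U : Tournament N) {a b c : Fin N} (hab : U.adj a b) (hbc : U.adj b c)
    (hca : U.adj c a) : Induces (carousel 1) U {a, b, c} := by
  have nab : a ≠ b := fun e => U.irrefl a (by rw [← e] at hab; exact hab)
  have nbc : b ≠ c := fun e => U.irrefl b (by rw [← e] at hbc; exact hbc)
  have nca : c ≠ a := fun e => U.irrefl c (by rw [← e] at hca; exact hca)
  have h1 := U.irrefl a
  have h2 := U.irrefl b
  have h3 := U.irrefl c
  have h4 := not_adj U hab
  have h5 := not_adj U hbc
  have h6 := not_adj U hca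
  refine ⟨(![a, b, c] : Fin 3 → Fin N), ?_, ?_, ?_⟩
  · intro i j hij
    fin_cases i <;> fin_cases j <;> simp_all
  · ext v
    simp only [Finset.mem_image, Finset.mem_univ, true_and, Finset.mem_insert,
      Finset.mem_singleton]
    constructor
    · rintro ⟨i, rfl⟩
      fin_cases i <;> simp
    · rintro (rfl | rfl | rfl)
      · exact ⟨(0 : Fin 3), rfl⟩
      · exact ⟨(1 : Fin 3), rfl⟩
      · exact ⟨(2 : Fin 3), rfl⟩
  · intro x y
    rw [carousel_adj]
    have hx := x.2
    have hy := y.2
    obtain ⟨x, hx'⟩ := x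
    obtain ⟨y, hy'⟩ := y
    have hx3 : x = 0 ∨ x = 1 ∨ x = 2 := by omega
    have hy3 : y = 0 ∨ y = 1 ∨ y = 2 := by omega
    rcases hx3 with rfl | rfl | rfl <;> rcases hy3 with rfl | rfl | rfl <;>
      simp [h1, h2, h3, h4, h5, h6, hab, hbc, hca]

theorem exists_source {N : ℕ} (U : Tournament N) {S : Finset (Fin N)} (hS : S.card = 3)
    (h : ¬ Induces (carousel 1) U S) : ∃ v ∈ S, ∀ u ∈ S, u ≠ v → U.adj v u := by
  classical
  obtain ⟨a, b, c, hab, hac, hbc, rfl⟩ := Finset.card_eq_three.mp hS
  by_cases h1 : U.adj a b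
  · by_cases h3 : U.adj c a
    · by_cases h2 : U.adj b c
      · exact absurd (induces_c3 U h1 h2 h3) h
      · refine ⟨c, by simp, ?_⟩
        intro u hu hne
        simp only [Finset.mem_insert, Finset.mem_singleton] at hu
        rcases hu with rfl | rfl | rfl
        · exact h3
        · exact adj_of_not U hbc h2
        · exact absurd rfl hne
    · refine ⟨a, by simp, ?_⟩
      intro u hu hne
      simp only [Finset.mem_insert, Finset.mem_singleton] at hu
      rcases hu with rfl | rfl | rfl
      · exact absurd rfl hne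
      · exact h1
      · exact adj_of_not U (Ne.symm hac) h3
  · have h1' := adj_of_not U hab h1
    by_cases h2 : U.adj b c
    · refine ⟨b, by simp, ?_⟩
      intro u hu hne
      simp only [Finset.mem_insert, Finset.mem_singleton] at hu
      rcases hu with rfl | rfl | rfl
      · exact h1'
      · exact absurd rfl hne
      · exact h2
    · have h2' := adj_of_not U hbc h2
      by_cases h3 : U.adj c a
      · refine ⟨c, by simp, ?_⟩
        intro u hu hne
        simp only [Finset.mem_insert, Finset.mem_singleton] at hu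
        rcases hu with rfl | rfl | rfl
        · exact h3
        · exact h2'
        · exact absurd rfl hne
      · have h3' := adj_of_not U (Ne.symm hac) h3
        have h4 := induces_c3 U h3' h2' h1'
        have h5 : ({a, c, b} : Finset (Fin N)) = {a, b, c} := by
          ext v
          simp only [Finset.mem_insert, Finset.mem_singleton]
          tauto
        rw [h5] at h4
        exact absurd h4 h

open Classical in
/-- the out-neighbours -/
noncomputable def outN {N : ℕ} (U : Tournament N) (v : Fin N) : Finset (Fin N) :=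
  univ.filter fun u => U.adj v u

open Classical in
theorem card_le_sum {N : ℕ} (U : Tournament N) :
    ((univ.powersetCard 3).filter fun S : Finset (Fin N) => ¬ Induces (carousel 1) U S).card ≤
      ∑ v, (outN U v).card.choose 2 := by
  calc _ ≤ (univ.biUnion fun v : Fin N => ((outN U v).powersetCard 2).image
        fun P => insert v P).card := by
        apply Finset.card_le_card
        intro S hS
        rw [Finset.mem_filter, Finset.mem_powersetCard] at hS
        obtain ⟨v, hv, hv2⟩ := exists_source U hS.1.2 hS.2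
        rw [Finset.mem_biUnion]
        refine ⟨v, Finset.mem_univ _, ?_⟩
        rw [Finset.mem_image]
        refine ⟨S.erase v, ?_, Finset.insert_erase hv⟩
        rw [Finset.mem_powersetCard]
        refine ⟨?_, by rw [Finset.card_erase_of_mem hv, hS.1.2]⟩
        intro u hu
        rw [Finset.mem_erase] at hu
        unfold outN
        rw [Finset.mem_filter]
        exact ⟨Finset.mem_univ _, hv2 u hu.2 hu.1⟩
    _ ≤ ∑ v : Fin N, (((outN U v).powersetCard 2).image fun P => insert v P).card :=
        Finset.card_biUnion_le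
    _ ≤ ∑ v : Fin N, (outN U v).card.choose 2 := by
        refine Finset.sum_le_sum fun v _ => ?_
        exact Finset.card_image_le.trans (by rw [Finset.card_powersetCard])

/-- `2 |N⁺(v)| = N - 1 - imb v` -/
theorem two_out {N : ℕ} (U : Tournament N) (v : Fin N) :
    2 * ((outN U v).card : ℤ) = N - 1 - imb (sg U) v := by
  classical
  have h1 : imb (sg U) v = ∑ u, (if u = v then (0 : ℤ) else if U.adj u v then 1 else -1) := rfl
  have h2 : ((outN U v).card : ℤ) = ∑ u, (if U.adj v u then (1 : ℤ) else 0) := by
    unfold outN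
    rw [Finset.card_filter]
    push_cast
    rfl
  have h3 : (N : ℤ) - 1 = ∑ u : Fin N, (if u = v then (0 : ℤ) else 1) := by
    have : ∑ u : Fin N, (if u = v then (0 : ℤ) else 1)
        = ∑ u : Fin N, (1 - if u = v then (1 : ℤ) else 0) := by
      refine Finset.sum_congr rfl fun u _ => ?_
      split_ifs <;> norm_num
    rw [this, Finset.sum_sub_distrib, Finset.sum_ite_eq' Finset.univ v]
    simp
  rw [h1, h2, h3, Finset.mul_sum, ← Finset.sum_sub_distrib]
  refine Finset.sum_congr rfl fun u _ => ?_
  by_cases h : u = v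
  · subst h
    simp [U.irrefl u]
  · by_cases h4 : U.adj u v
    · simp [h, h4, not_adj U h4]
    · simp [h, h4, adj_of_not U h h4]

theorem sum_imb {N : ℕ} (U : Tournament N) : ∑ v, imb (sg U) v = 0 := by
  have h : ∑ v, imb (sg U) v = - ∑ v, imb (sg U) v := by
    calc ∑ v, imb (sg U) v = ∑ v, ∑ u, sg U u v := rfl
      _ = ∑ u, ∑ v, sg U u v := Finset.sum_comm
      _ = ∑ u, ∑ v, - sg U v u :=
        Finset.sum_congr rfl fun u _ => Finset.sum_congr rfl fun v _ => (sg_isSgn U).skew u v
      _ = - ∑ v, imb (sg U) v := by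
        simp only [Finset.sum_neg_distrib]
        rfl
  omega

theorem choose_two_int (o : ℕ) : 8 * ((o.choose 2 : ℕ) : ℤ) = (2 * (o : ℤ)) * (2 * o - 2) := by
  have h := Nat.choose_two_right o
  have h2 : 2 * o.choose 2 = o * (o - 1) := by
    rw [h]
    exact Nat.mul_div_cancel' (Nat.even_mul_pred_self o).two_dvd
  have h3 : (2 : ℤ) * ((o.choose 2 : ℕ) : ℤ) = o * (o - 1) := by
    rcases Nat.eq_zero_or_pos o with rfl | ho
    · simp
    · have : ((2 * o.choose 2 : ℕ) : ℤ) = ((o * (o - 1) : ℕ) : ℤ) := by rw [h2]
      push_cast [Nat.cast_sub ho] at this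
      linarith
  linear_combination 4 * h3

theorem sum_choose {N : ℕ} (U : Tournament N) :
    8 * ((∑ v, (outN U v).card.choose 2 : ℕ) : ℤ) =
      N * (N - 1) * (N - 3) + ∑ v, imb (sg U) v ^ 2 := by
  push_cast
  rw [Finset.mul_sum]
  have h : ∀ v, 8 * (((outN U v).card.choose 2 : ℕ) : ℤ) =
      ((N : ℤ) - 1) * (N - 3) + (imb (sg U) v ^ 2 - (2 * (N : ℤ) - 4) * imb (sg U) v) := by
    intro v
    rw [choose_two_int, two_out]
    ring
  have h2 : ∑ v, (2 * (N : ℤ) - 4) * imb (sg U) v = 0 := by
    rw [← Finset.mul_sum, sum_imb, mul_zero]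
  rw [Finset.sum_congr rfl (fun v _ => h v), Finset.sum_add_distrib, Finset.sum_sub_distrib,
    h2, Finset.sum_const, Finset.card_univ, Fintype.card_fin, nsmul_eq_mul]
  ring

theorem choose_three (N : ℕ) : 6 * ((N.choose 3 : ℕ) : ℤ) = N * (N - 1) * (N - 2) := by
  have h := Nat.descFactorial_eq_factorial_mul_choose N 3
  have h2 : ((N.descFactorial 3 : ℕ) : ℤ) = N * (N - 1) * (N - 2) := by
    rcases Nat.lt_or_ge N 3 with h3 | h3
    · interval_cases N <;> simp [Nat.descFactorial]
    · obtain ⟨M, rfl⟩ : ∃ M, N = M + 3 := ⟨N - 3, by omega⟩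
      have e1 : M + 3 - 2 = M + 1 := by omega
      have e2 : M + 3 - 1 = M + 2 := by omega
      have e3 : M + 3 - 0 = M + 3 := by omega
      simp only [Nat.descFactorial, e1, e2, e3]
      push_cast
      ring
  rw [← h2, h]
  norm_num [Nat.factorial]

open Classical in
/-- lower bound for the number of cyclic triangles -/
theorem c3_lower {N : ℕ} (U : Tournament N) :
    (N : ℤ) * (N - 1) * (N - 2) - 3 * ∑ v, imb (sg U) v ^ 2 ≤
      24 * (((univ.powersetCard 3).filter fun S : Finset (Fin N) =>
        Induces (carousel 1) U S).card : ℤ) := by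
  have h1 := card_le_sum U
  have h2 := Finset.card_filter_add_card_filter_not (s := (univ : Finset (Fin N)).powersetCard 3)
    (fun S : Finset (Fin N) => Induces (carousel 1) U S)
  rw [Finset.card_powersetCard, Finset.card_univ, Fintype.card_fin] at h2
  have h3 := choose_three N
  have h4 := sum_choose U
  have h1' : ((((univ.powersetCard 3).filter fun S : Finset (Fin N) =>
      ¬ Induces (carousel 1) U S).card : ℕ) : ℤ) ≤ ((∑ v, (outN U v).card.choose 2 : ℕ) : ℤ) := by
    exact_mod_cast h1
  have h2' : ((((univ.powersetCard 3).filter fun S : Finset (Fin N) =>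
      Induces (carousel 1) U S).card : ℕ) : ℤ) + ((((univ.powersetCard 3).filter
        fun S : Finset (Fin N) => ¬ Induces (carousel 1) U S).card : ℕ) : ℤ) =
      ((N.choose 3 : ℕ) : ℤ) := by exact_mod_cast h2
  have h5 : (0 : ℤ) ≤ N * (N - 1) := by
    rcases Nat.eq_zero_or_pos N with rfl | h
    · simp
    · have : (1 : ℤ) ≤ N := by exact_mod_cast h
      exact mul_nonneg (by omega) (by omega)
  nlinarith

end Pool.Agent.U944.CB
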